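import Pool.Agent.MWS.StmtsW

/-!
# MWS, row EWL: insertion of a letter behind a word of multiple letters
-/

namespace Pool.Agent.MWS.H42

open Pool.Agent.Helper14_MV Pool.Agent.Helper2_MV Pool.Agent.MVO Pool.Agent.MWL

theorem ewl (hI : IdxStmt) (hE : EwxStmt) : EwlStmt := by
  intro β hβ w
  induction w with
  | nil =>
    intro p q a ha _
    exact hI β hβ.toClX p q a (Or.inr ha) 2 (by norm_num)
  | cons b w' ih =>
    intro p q a ha hc
    have hb : b ∈ p ∨ b ∈ w' ++ q := by
      by_cases hba : b = a
      · right
        rw [hba]
        exact List.mem_append_right _ ha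
      · have h2 := hc b (List.mem_cons_self ..)
        rw [List.count_append, List.count_cons_of_ne (Ne.symm hba), List.cons_append,
          List.count_cons_self] at h2
        by_contra hn
        push Not at hn
        rw [List.count_eq_zero_of_not_mem hn.1, List.count_eq_zero_of_not_mem hn.2] at h2
        omega
    have hb' : b ∈ p ∨ b ∈ w' ++ a :: q := by
      rcases hb with h | h
      · exact Or.inl h
      · right
        rcases List.mem_append.1 h with h | h
        · exact List.mem_append_left _ h
        · exact List.mem_append_right _ (List.mem_cons_of_mem _ h)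
    have s1 := hE β hβ p (w' ++ q) a b (List.mem_append_right _ ha) hb
    have s3 := hE β hβ p (w' ++ a :: q) a b
      (List.mem_append_right _ (List.mem_cons_of_mem _ ha)) hb'
    have s2 := ih (p ++ [a, b]) q a ha (by
      intro c hcw
      have h2 := hc c (List.mem_cons_of_mem _ hcw)
      refine le_trans h2 ?_
      simp only [List.count_append, List.count_cons, List.cons_append, List.count_nil]
      omega)
    have e1 : (p ++ [a, b]) ++ a :: (w' ++ q) = p ++ a :: b :: a :: (w' ++ q) := by simp
    have e2 : (p ++ [a, b]) ++ a :: (w' ++ a :: q) = p ++ a :: b :: a :: (w' ++ a :: q) := by simp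
    rw [e1, e2] at s2
    exact β.trans (β.trans s1 s2) s3.symm

end Pool.Agent.MWS.H42
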